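import Mathlib

/-! Definitions used in the statement. -/

namespace Pool.Agent.MP_e18349_al

open CategoryTheory Limits

/-- A Thomason subset: a union of closed subsets, each with quasi-compact complement. -/
def IsThomason {X : Type} [TopologicalSpace X] (Y : Set X) : Prop :=
  ∃ S : Set (Set X), (∀ Z ∈ S, IsClosed Z ∧ IsCompact Zᶜ) ∧ Y = ⋃₀ S

/-- Every point is weakly visible. -/
def WeaklyNoetherian (X : Type) [TopologicalSpace X] : Prop :=
  ∀ x : X, ∃ Y₁ Y₂ : Set X, IsThomason Y₁ ∧ IsThomason Y₂ ∧ {x} = Y₁ ∩ Y₂ᶜ

universe w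

/-- A localizing subcategory of the unbounded derived category `D(R)`: a triangulated
subcategory closed under isomorphisms and under all small coproducts. -/
def IsLocalizing {R : Type} [CommRing R] [HasDerivedCategory.{w} (ModuleCat.{0} R)]
    (P : ObjectProperty (DerivedCategory (ModuleCat.{0} R))) : Prop :=
  P.IsTriangulated ∧ P.IsClosedUnderIsomorphisms ∧
    ∀ ι : Type, P.IsClosedUnderColimitsOfShape (Discrete ι)

end Pool.Agent.MP_e18349_al
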